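import Pool.Agent.H95.S6.ZmV
import Pool.Agent.H89.ZCL.AzR

/-!
# The violation of the zoom, for frames of the A-zoom
-/

set_option autoImplicit false

namespace Pool.ZCL

open Finset Real
open Pool.Agent.H49.Ent Pool.Agent.H32.Dense Pool.STK Pool.KA Pool.KSAT Pool.K2S Pool.PB
open Pool.S6K (exact_label ball_claim)

/-- **The violation of the A-zoom.** -/
theorem az_V {m : ℕ} {a R h₁ : ℝ} (ha : 1 ≤ a) (hR : 0 < R) (hU : UBa m a R) (hh₁ : 0 < h₁)
    (i₀ : Fin m) {e : ℝ} (he : 0 < e) : ∃ τ > 0, ∃ J₁ : ℕ, ∀ J ≥ J₁, ∀ (F : Fam m J)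
    (A : F.Ω → Prop), Fam.Stt F a R τ A → Lb F i₀ ⌊h₁ * J⌋₊ A → ∀ (r w lam J' : ℕ)
    (z : F.Ω → Fin m → ℝ) (h : w + J' ≤ J), w + J' + lam ≤ J → r ≤ J → AzF F i₀ r lam w A z →
    ∀ (hA : IsLaw (cond F.p A True)) (B : F.Ω → Prop),
      Real.exp (-(τ * J)) ≤ Pe (cond F.p A True) B →
    ∀ hB : IsLaw (cond (cond F.p A True) B True),
    (R - e) * J - m * (((J : ℝ) - J' - lam) * Real.log 2) ≤
      (((F.res A True hA).zm w J' h (Box.plkC lam i₀) z).res B True hB).V J' := by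
  obtain ⟨γ, hγ, hz⟩ := zm_V_res (m := m) (b := 4) ha he (by norm_num)
  obtain ⟨g, hg⟩ : ∃ g, g = min (min γ 1) h₁ := ⟨_, rfl⟩
  have hg0 : 0 < g := by rw [hg]; exact lt_min (lt_min hγ one_pos) hh₁
  have hgγ : g ≤ γ := by rw [hg]; exact (min_le_left _ _).trans (min_le_left _ _)
  have hg1 : g ≤ 1 := by rw [hg]; exact (min_le_left _ _).trans (min_le_right _ _)
  have hgh : g ≤ h₁ := by rw [hg]; exact min_le_right _ _
  obtain ⟨τb, hτb, Jb, hball⟩ := ball_claim ha hR hU (by positivity : 0 < g / 2)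
  obtain ⟨τ₁, hτ₁, J₁, hmain⟩ := hz R (m * Real.log (2 * 6 + 3)) (τb / 2) (by positivity)
  obtain ⟨τ, hτ⟩ : ∃ τ, τ = min τ₁ (τb / 4) := ⟨_, rfl⟩
  have hτ0 : 0 < τ := by rw [hτ]; exact lt_min hτ₁ (by positivity)
  have hττ₁ : τ ≤ τ₁ := by rw [hτ]; exact min_le_left _ _
  have hττb : τ ≤ τb / 4 := by rw [hτ]; exact min_le_right _ _
  obtain ⟨J₂, hJ₂⟩ := exists_nat_gt (4 / g + 4 * Real.log 5 / τb + 1)
  refine ⟨τ, hτ0, max J₁ (max Jb J₂), fun J hJ F A hS hLb r w lam J' z h hr hrJ haz hA B hB hlB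
    => ?_⟩
  have hJ1 : J₁ ≤ J := (le_max_left _ _).trans hJ
  have hJb : Jb ≤ J := (le_max_left _ _).trans ((le_max_right _ _).trans hJ)
  have hJ2 : 4 / g + 4 * Real.log 5 / τb + 1 < J :=
    hJ₂.trans_le (by exact_mod_cast (le_max_right _ _).trans ((le_max_right _ _).trans hJ))
  have hJr : (0 : ℝ) ≤ J := Nat.cast_nonneg J
  have hl5 : 0 < Real.log 5 := Real.log_pos (by norm_num)
  have q1 : 0 < 4 / g := by positivity
  have q2 : 0 < 4 * Real.log 5 / τb := by positivity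
  have r1 : 4 ≤ g * J := by
    have h1 : 4 / g < J := by linarith
    rw [div_lt_iff₀ hg0] at h1
    linarith
  have r2 : Real.log 5 ≤ τb / 4 * J := by
    have h1 : 4 * Real.log 5 / τb < J := by linarith
    rw [div_lt_iff₀ hτb] at h1
    linarith
  -- the scales
  obtain ⟨x1, hx1⟩ : ∃ x1, x1 = ⌊g * J⌋₊ := ⟨_, rfl⟩
  have hx1a : (x1 : ℝ) ≤ g * J := by rw [hx1]; exact Nat.floor_le (by positivity)
  have hx1b : g * J < x1 + 1 := by rw [hx1]; exact Nat.lt_floor_add_one _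
  have hx1c : 1 ≤ x1 := by
    have : (0 : ℝ) < x1 := by linarith
    exact_mod_cast this
  have hx1h : x1 ≤ ⌊h₁ * J⌋₊ := by
    rw [hx1]
    exact Nat.floor_le_floor (mul_le_mul_of_nonneg_right hgh hJr)
  have hx1J : x1 ≤ J := by
    have : (x1 : ℝ) ≤ J := hx1a.trans (by nlinarith)
    exact_mod_cast this
  obtain ⟨q, hq⟩ : ∃ q, q + 1 = x1 := ⟨x1 - 1, by omega⟩
  have hqr : (q : ℝ) + 1 = x1 := by exact_mod_cast hq
  have hqx : g / 2 * J ≤ q := by linarith
  have hA0 : 0 < Pe F.p A := lt_of_lt_of_le (Real.exp_pos _) hS.2.2.2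
  have hS1 := Fam.Stt.mono (by linarith : τ ≤ τb) hS
  -- the velocity is not frozen
  have hnf : ∀ B : F.Ω → Prop, Sub B A → Real.exp (-(τb / 2 * J)) * Pe F.p A ≤ Pe F.p B →
      ¬ FrzG F i₀ 0 (0 + x1) B := by
    intro B hBA hPB hF
    rw [Nat.zero_add] at hF
    obtain ⟨B', hB', hPB', hball'⟩ := frz_ball (q := q) (h := ⌊h₁ * J⌋₊) hF
      (LineAt.hered _ _ _ _ A B hBA hLb) (by omega) (by omega)
    refine hball J hJb F B' ⟨hS1.1, hS1.2.1, hS1.2.2.1, ?_⟩ q (by omega) hqx hball'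
    have h1 : Real.exp (-(τb * J)) * 5 ≤ Pe F.p B := by
      refine le_trans ?_ hPB
      refine le_trans ?_ (mul_le_mul_of_nonneg_left hS.2.2.2 (Real.exp_pos _).le)
      have h2 : (5 : ℝ) = Real.exp (Real.log 5) := by rw [Real.exp_log (by norm_num)]
      rw [← Real.exp_add]
      calc Real.exp (-(τb * J)) * 5 = Real.exp (-(τb * J)) * Real.exp (Real.log 5) := by
            rw [← h2]
        _ = Real.exp (-(τb * J) + Real.log 5) := by rw [← Real.exp_add]
        _ ≤ _ := Real.exp_le_exp.2 (by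
            have h3 := mul_le_mul_of_nonneg_right hττb hJr
            linarith)
    linarith
  have key := hmain J hJ1 F A (Fam.Stt.mono hττ₁ hS) i₀ w lam J' x1 z (by omega) (by omega)
    (hx1a.trans (mul_le_mul_of_nonneg_right hgγ hJr)) (Or.inr hnf) (hnf A (fun ω hω => hω) (by
      have h1 : Real.exp (-(τb / 2 * J)) ≤ 1 := Real.exp_le_one_iff.2 (by
        have : 0 ≤ τb / 2 * (J : ℝ) := by positivity
        linarith)
      nlinarith))
    (by
      intro ω ω' _ _ _ _ hw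
      refine haz.win ω ω' ?_
      have a1 := Prod.ext_iff.1 hw
      have a2 := Prod.ext_iff.1 a1.2
      exact Prod.ext a1.1 (Prod.ext a2.2 a2.1))
    (fun ω hω _ i => haz.bd ω hω i)
    (by
      intro B' hB' hPB'
      obtain ⟨c, hc⟩ := haz.vis
      obtain ⟨φ, hφ'⟩ := ptr_coarse F hrJ
      have hφ : ∀ ω, ptr F r ω = φ (Fam.pt F ω) := hφ'
      have hl := isLaw_cond F.isLaw hPB'
      have hin : ∀ ω, 0 < cond F.p B' True ω → A ω := fun ω hω =>
        hB' ω (of_eq_true ((cond_pos_iff F.isLaw.nonneg B' True ω).1 hω).2)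
      have hzz : ∀ ω ω', 0 < cond F.p B' True ω → 0 < cond F.p B' True ω' →
          Fam.pt F ω = Fam.pt F ω' → z ω = z ω' := by
        intro ω ω' hω hω' hpt
        rw [hc ω (hin ω hω), hc ω' (hin ω' hω'), hφ ω, hφ ω', hpt]
      refine zp_vis (F.res B' True hl) (lam := lam) (i0 := i₀) (z := z) (c := 6) hzz ?_
      intro ω ω' hω hω' hpt i
      have h1 := haz.vel (hin ω hω) (hin ω' hω') (by rw [hφ ω, hφ ω']; exact congrArg φ hpt) i
      rw [← hzz ω ω' hω hω' hpt] at h1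
      exact h1)
    hA B (le_trans (Real.exp_le_exp.2 (by
      have := mul_le_mul_of_nonneg_right hττ₁ hJr
      linarith)) hB) hlB
  exact key

end Pool.ZCL
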