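import Pool.Agent.H19.S6.AzV
import Pool.Agent.H95.S6.EndF
import Pool.Agent.H35.ZCL.Asec
import Pool.Agent.H89.ZCL.See
import Pool.Agent.H89.ZCL.ChsTls2
import Pool.Agent.H42.S6C.Defs

/-!
# The end: the directions are not constant on all windows

If the directions are constant on all windows, to the precision of the straightness, then the
A-zoom of a very long window has leaves of almost full precision, and it keeps most of the
violation of the family: this is excluded by the theorem on full labels.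
-/

set_option autoImplicit false

namespace Pool.S6C

open Finset Real
open Pool.Agent.H49.Ent Pool.Agent.H32.Dense Pool.STK Pool.KA Pool.KSAT Pool.K2S Pool.PB Pool.KS6
open Pool.ZCL

/-- The time deficit and the violation of the restrictions of the A-zoom. -/
theorem azG_res {a R h₁ : ℝ} (ha : 1 ≤ a) (hR : 0 < R) (hU : UBa 3 a R) (hh₁ : 0 < h₁)
    (i₀ : Fin 3) {e t : ℝ} (he : 0 < e) (ht : 0 < t) : ∃ τ > 0, ∃ J₁ : ℕ, ∀ J ≥ J₁,
    ∀ (F : Fam 3 J) (A : F.Ω → Prop), Fam.Stt F a R τ A → Lb F i₀ ⌊h₁ * J⌋₊ A →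
    ∀ (r w lam J' : ℕ) (z : F.Ω → Fin 3 → ℝ) (h : w + J' ≤ J), w + J' + lam ≤ J → r ≤ J →
    AzF F i₀ r lam w A z →
    ∀ (hA : IsLaw (cond F.p A True)) (B : F.Ω → Prop),
      Real.exp (-(τ * J)) ≤ Pe (cond F.p A True) B →
    ∀ hB : IsLaw (cond (cond F.p A True) B True),
    (((F.res A True hA).zm w J' h (Box.plkC lam i₀) z).res B True hB).Tm (t * J) ∧
    (R - e) * J - 3 * (((J : ℝ) - J' - lam) * Real.log 2) ≤
      (((F.res A True hA).zm w J' h (Box.plkC lam i₀) z).res B True hB).V J' := by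
  obtain ⟨τ₁, hτ₁, J₁, hV⟩ := az_V (m := 3) ha hR hU hh₁ i₀ he
  obtain ⟨τ, hτ⟩ : ∃ τ, τ = min τ₁ (t / (12 * (1 + a))) := ⟨_, rfl⟩
  have hτ0 : 0 < τ := by rw [hτ]; exact lt_min hτ₁ (by positivity)
  have hττ₁ : τ ≤ τ₁ := by rw [hτ]; exact min_le_left _ _
  have hτt : (1 + a) * (6 * (2 * τ)) ≤ t := by
    have h1 : τ ≤ t / (12 * (1 + a)) := by rw [hτ]; exact min_le_right _ _
    rw [le_div_iff₀ (by positivity)] at h1
    linarith
  refine ⟨τ, hτ0, J₁, fun J hJ F A hS hLb r w lam J' z h hr hrJ haz hA B hB hlB => ⟨?_, ?_⟩⟩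
  · have hp := F.isLaw
    have hJr : (0 : ℝ) ≤ J := Nat.cast_nonneg J
    have hA0 : 0 < Pe F.p A := lt_of_lt_of_le (Real.exp_pos _) hS.2.2.2
    have hE : Real.exp (-(τ * J)) * Pe F.p A ≤ Pe F.p (fun ω => A ω ∧ B ω) := by
      rw [Pe_cond, le_div_iff₀ hA0] at hB
      exact hB
    have hS' : Fam.Stt F a R (2 * τ) (fun ω => A ω ∧ B ω) := by
      have h1 := Fam.Stt.mono (by linarith : τ ≤ 2 * τ) hS
      refine ⟨h1.1, h1.2.1, h1.2.2.1, le_trans ?_ hE⟩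
      refine le_trans ?_ (mul_le_mul_of_nonneg_left hS.2.2.2 (Real.exp_pos _).le)
      rw [← Real.exp_add]
      refine Real.exp_le_exp.2 ?_
      linarith
    obtain ⟨hl, -, hTm⟩ := stt_res (τ' := t) ha (by positivity) hτt hS'
    have h5 := zm_Tm (F.res (fun ω => A ω ∧ B ω) True hl) h (Box.plkC lam i₀) z (by
      intro ω ω' _ _ hh
      have a1 := Prod.ext_iff.1 hh
      have a2 := Prod.ext_iff.1 a1.2
      exact haz.win ω ω' (Prod.ext a1.1 (Prod.ext a2.2 a2.1))) hTm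
    have e1 : (((F.res A True hA).zm w J' h (Box.plkC lam i₀) z).res B True hlB).p =
        ((F.res (fun ω => A ω ∧ B ω) True hl).zm w J' h (Box.plkC lam i₀) z).p :=
      cond_and F.p hA0.ne'
    unfold Fam.Tm at h5 ⊢
    rw [e1]
    exact h5
  · have h1 := hV J hJ F A (Fam.Stt.mono hττ₁ hS) hLb r w lam J' z h hr hrJ haz hA B
      (le_trans (Real.exp_le_exp.2 (by
        have := mul_le_mul_of_nonneg_right hττ₁ (Nat.cast_nonneg (α := ℝ) J)
        linarith)) hB) hlB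
    exact_mod_cast h1

/-- **(ENDW)** -/
theorem endw_thm : ENDWStmt := by
  classical
  intro hSTP hSLP S a R h₁ i₀ c s₂ r D σ hC₀
  obtain ⟨S', hsub, -, hBT⟩ := btail_sub hC₀
  have hC := hC₀.le hsub
  have hR := hC.R0
  obtain ⟨x, hx, g₁, hg₁, τ', hτ', hend⟩ := end_fam 1 (R := R / 2) (by linarith)
  refine ⟨1 - R / 24, by linarith, fun Q hQ₀ hQh hQ1 hQD hP hpiQ hall => ?_⟩
  have hQ0 : 0 < Q := by linarith
  have hrow := hC.row Q hQ0 hQ1 hQD
  have H := AzH.of_cs hC hQ0 hQ1 hQD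
  have hT := hBT Q hQ0.le hQ1 hP
  obtain ⟨pi, hpi⟩ : ∃ pi, pi = (σ Q).pi := ⟨_, rfl⟩
  rw [← hpi] at hpiQ H
  -- the constants
  obtain ⟨e, he⟩ : ∃ e, e = (Q - max pi 0) / 2 := ⟨_, rfl⟩
  have he0 : 0 < e := by
    have : max pi 0 < Q := max_lt hpiQ hQ0
    rw [he]
    linarith
  obtain ⟨g, hg⟩ : ∃ g, g = min g₁ 1 := ⟨_, rfl⟩
  have hg0 : 0 < g := by rw [hg]; exact lt_min hg₁ one_pos
  have hg1 : g ≤ 1 := by rw [hg]; exact min_le_right _ _
  have hgg₁ : g ≤ g₁ := by rw [hg]; exact min_le_left _ _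
  obtain ⟨ψ, hψ, hSp⟩ := az_S_bas H he0 hg0 hg1
  obtain ⟨τ₁, hτ₁, J₁, hres⟩ := azG_res H.a1 hR H.ub H.h₁0 i₀ (e := R / 8) (t := τ' * (e / 2))
    (by linarith) (by positivity)
  obtain ⟨N, K₁, hleaf⟩ := az_leaf hSTP hSLP (fun S hT => chs_of_tls hT) H hC.c0 hT he0 hx
    (fun _ => 1)
  obtain ⟨δ, hδ⟩ : ∃ δ, δ = min ψ τ₁ / 4 := ⟨_, rfl⟩
  have hδ0 : 0 < δ := by
    rw [hδ]
    have : 0 < min ψ τ₁ := lt_min hψ hτ₁
    linarith
  have hδψ : 4 * δ ≤ ψ := by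
    have : min ψ τ₁ ≤ ψ := min_le_left _ _
    rw [hδ]
    linarith
  have hδτ : 4 * δ ≤ τ₁ := by
    have : min ψ τ₁ ≤ τ₁ := min_le_right _ _
    rw [hδ]
    linarith
  obtain ⟨b, hb, hleaf'⟩ := hleaf δ hδ0
  obtain ⟨b', hb'⟩ : ∃ b', b' = min b (e * g / 16) := ⟨_, rfl⟩
  have hb'0 : 0 < b' := by rw [hb']; exact lt_min hb (by positivity)
  have hb'1 : b' ≤ b := by rw [hb']; exact min_le_left _ _
  have hb'2 : b' ≤ e * g / 16 := by rw [hb']; exact min_le_right _ _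
  obtain ⟨w, hw0, hw⟩ := exists_rat_btwn (show (0 : ℝ) < min (min e (R / 48)) 1 by positivity)
  have hw0' : 0 < w := by exact_mod_cast hw0
  have hwe : (w : ℝ) ≤ e := (hw.trans_le ((min_le_left _ _).trans (min_le_left _ _))).le
  have hwR : (w : ℝ) ≤ R / 48 := (hw.trans_le ((min_le_left _ _).trans (min_le_right _ _))).le
  have hw1 : w ≤ 1 := by
    have : (w : ℝ) ≤ 1 := (hw.trans_le (min_le_right _ _)).le
    exact_mod_cast this
  obtain ⟨s, hs⟩ : ∃ s, s = pi - b' := ⟨_, rfl⟩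
  have hws : (w : ℝ) + max s 0 + e ≤ Q := by
    have h1 : max s 0 ≤ max pi 0 := max_le_max (by rw [hs]; linarith) le_rfl
    rw [he] at hwe ⊢
    linarith
  have hrot : Clp S' (capS 1 (qRot i₀ Q w) s) := by
    have h1 := (hrow.rot w hw0'.le hw1).1 b' hb'0
    rw [hall w hw0' hw1, ← hpi, ← hs] at h1
    exact h1
  obtain ⟨ψ₀, hψ₀, hcl⟩ := hleaf' δ hδ0 w s hw0.le hws (by rw [hs]; linarith) hrot
  obtain ⟨J₂, hSp'⟩ := hSp w s hw0.le hws (by rw [hs]; linarith)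
  -- the end
  by_cases hN : 1 ≤ N
  swap
  · refine Clp.not_false hC.ne (Clp.mono (J₂ := 0) hcl ?_)
    rintro J - F A h1
    obtain ⟨A₂, z, -, -, -, hA₂, h, -, B, -, K, -, hN', -⟩ := h1 A (fun _ h => h) (by
      have : Real.exp (-(ψ₀ * J)) ≤ 1 := Real.exp_le_one_iff.2 (by
        have : 0 ≤ ψ₀ * (J : ℝ) := by positivity
        linarith)
      exact mul_le_of_le_one_left (Pe_nonneg F.isLaw A) this)
    exact hN hN'
  obtain ⟨J₃, hend'⟩ := hend ψ hψ K₁ N hN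
  obtain ⟨J₄, hJ₄⟩ := exists_nat_gt (2 * (J₃ : ℝ) / e + 2 / e + 64 / R + Real.log 2 / δ)
  refine Clp.not_false hC.ne (Clp.mono (J₂ := max J₁ (max J₂ J₄)) (hcl.and (Clp.of (S := S')
    (Φ := fun J F A => S'.St δ J F A) hδ0 0 fun J _ F A hA => hA)) ?_)
  rintro J hJ F A ⟨h1, hSt⟩
  have hJ1 : J₁ ≤ J := (le_max_left _ _).trans hJ
  have hJ2 : J₂ ≤ J := (le_max_left _ _).trans ((le_max_right _ _).trans hJ)
  have hJ4 : 2 * (J₃ : ℝ) / e + 2 / e + 64 / R + Real.log 2 / δ < J :=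
    hJ₄.trans_le (by exact_mod_cast (le_max_right _ _).trans ((le_max_right _ _).trans hJ))
  have hl2 : 0 < Real.log 2 := Real.log_pos one_lt_two
  have hl21 : Real.log 2 ≤ 1 := by
    have := Real.log_two_lt_d9
    linarith
  have q1 : 0 ≤ 2 * (J₃ : ℝ) / e := by positivity
  have q2 : 0 < 2 / e := by positivity
  have q3 : 0 < 64 / R := by positivity
  have q4 : 0 < Real.log 2 / δ := by positivity
  have hJr : (0 : ℝ) < J := by linarith
  have r1 : (J₃ : ℝ) ≤ e / 2 * J := by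
    have : 2 * (J₃ : ℝ) / e ≤ J := by linarith
    rw [div_le_iff₀ he0] at this
    linarith
  have r3 : 64 ≤ R * J := by
    have : 64 / R ≤ J := by linarith
    rw [div_le_iff₀ hR] at this
    linarith
  have r4 : Real.log 2 ≤ δ * J := by
    have : Real.log 2 / δ ≤ J := by linarith
    rw [div_le_iff₀ hδ0] at this
    linarith
  have hp := F.isLaw
  obtain ⟨A₂, z, hA₂, hPA₂, hz, hlA₂, hh, hJ', B, hPB, K, hK, -, i₁, i, p, ρ, hi, hiρ, hp1, hpρ, hρN,
    hBl⟩ := h1 A (fun _ h => h) (by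
      have : Real.exp (-(ψ₀ * J)) ≤ 1 := Real.exp_le_one_iff.2 (by
        have : 0 ≤ ψ₀ * (J : ℝ) := by positivity
        linarith)
      exact mul_le_of_le_one_left (Pe_nonneg F.isLaw A) this)
  obtain ⟨hadd, -⟩ := azJ_add he0 hw0.le hws (J := J) (by linarith)
  have hStA₂ : S'.St (2 * δ) J F A₂ := by
    have h2 := S'.res (τ' := δ) hδ0.le hSt hA₂ hPA₂
    have e1 : δ + δ = 2 * δ := by ring
    rwa [e1] at h2
  have hStt := Fam.Stt.mono (by linarith : 2 * δ ≤ τ₁) (H.st _ _ _ _ hStA₂)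
  have hLb := H.lb _ _ _ _ hStA₂
  have hPA0 : 0 < Pe F.p A₂ := lt_of_lt_of_le (Real.exp_pos _) hStt.2.2.2
  have hle : (azJ Q w s J : ℝ) ≤ J := by
    have : azJ Q w s J ≤ J := by omega
    exact_mod_cast this
  have hJ'0 : (0 : ℝ) ≤ (azJ Q w s J : ℝ) := Nat.cast_nonneg _
  -- the spread of the fans
  have hSpB : Sp (azG F i₀ Q w s A₂ z hlA₂ hh) 1 ψ g₁ B := by
    refine Sp.mono (ψ := ψ) (g := g) le_rfl hgg₁ ?_
    intro B' hB' hPB'
    refine hSp' J hJ2 F A₂ (S'.mono (by linarith) hStA₂) z hz hh hlA₂ B' ?_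
    refine le_trans ?_ hPB'
    refine le_trans ?_ (mul_le_mul_of_nonneg_left hPB (Real.exp_pos _).le)
    rw [← Real.exp_add]
    refine Real.exp_le_exp.2 ?_
    have := mul_le_mul_of_nonneg_right hδψ hJ'0
    nlinarith
  have hPB0 : 0 < Pe (azG F i₀ Q w s A₂ z hlA₂ hh).p B := lt_of_lt_of_le (Real.exp_pos _) hPB
  have hJ₃' : J₃ ≤ azJ Q w s J := by
    have : (J₃ : ℝ) ≤ (azJ Q w s J : ℝ) := r1.trans hJ'
    exact_mod_cast this
  refine hend' _ hJ₃' (azG F i₀ Q w s A₂ z hlA₂ hh) B i₁ i p ρ hi hp1 hpρ.le hρN hPB0 ?_ hSpB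
    (Lab.mono le_rfl hK le_rfl le_rfl ?_ le_rfl hBl)
  · -- the restrictions
    intro A' hA' hPA' hlaw
    have hPA'1 : Real.exp (-(τ₁ * J)) ≤ Pe (cond F.p A₂ True) A' := by
      have h2 : Pe (cond F.p A₂ True) B ≤ 2 * Pe (cond F.p A₂ True) A' := hPA'
      have h3 : Real.exp (-(2 * δ * J)) ≤ Pe (cond F.p A₂ True) A' := by
        have h4 : Real.exp (-(δ * azJ Q w s J)) ≤ Pe (cond F.p A₂ True) B := hPB
        have h5 : Real.exp (-(2 * δ * J)) * 2 ≤ Real.exp (-(δ * azJ Q w s J)) := by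
          have e2 : (2 : ℝ) = Real.exp (Real.log 2) := by rw [Real.exp_log (by norm_num)]
          calc Real.exp (-(2 * δ * J)) * 2 = Real.exp (-(2 * δ * J)) * Real.exp (Real.log 2) := by
                rw [← e2]
            _ = Real.exp (-(2 * δ * J) + Real.log 2) := by rw [← Real.exp_add]
            _ ≤ _ := by
                refine Real.exp_le_exp.2 ?_
                have := mul_le_mul_of_nonneg_left hle hδ0.le
                linarith
        linarith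
      refine le_trans (Real.exp_le_exp.2 ?_) h3
      have := mul_le_mul_of_nonneg_right hδτ hJr.le
      nlinarith
    obtain ⟨k1, k2⟩ := hres J hJ1 F A₂ hStt hLb ⌊Q * J⌋₊ ⌊(w : ℝ) * J⌋₊ ⌊s * J⌋₊ (azJ Q w s J) z hh
      (by
        have := floor_le_J hQ1 J
        omega) (floor_le_J hQ1 J) hz hlA₂ A' hPA'1 hlaw
    refine ⟨?_, ?_⟩
    · unfold Fam.Tm at k1 ⊢
      refine le_trans ?_ k1
      have h6 : τ' * (e / 2) * J ≤ τ' * azJ Q w s J := by
        have := mul_le_mul_of_nonneg_left hJ' hτ'.le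
        linarith
      linarith
    · refine le_trans ?_ k2
      have e1 : (J : ℝ) - azJ Q w s J - ⌊s * J⌋₊ = J - ⌊Q * J⌋₊ + ⌊(w : ℝ) * J⌋₊ := by
        rw [← hadd]
        push_cast
        ring
      rw [e1]
      have f1 : Q * J < ⌊Q * J⌋₊ + 1 := Nat.lt_floor_add_one _
      have f2 : (⌊(w : ℝ) * J⌋₊ : ℝ) ≤ w * J := Nat.floor_le (by positivity)
      have f3 : (w : ℝ) * J ≤ R / 48 * J := mul_le_mul_of_nonneg_right hwR hJr.le
      have f4 : (J : ℝ) - ⌊Q * J⌋₊ + ⌊(w : ℝ) * J⌋₊ ≤ R / 24 * J + 1 + R / 48 * J := by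
        have : (1 - R / 24) * J ≤ Q * J := mul_le_mul_of_nonneg_right hQ₀ hJr.le
        linarith
      have f5 : 0 ≤ (J : ℝ) - ⌊Q * J⌋₊ + ⌊(w : ℝ) * J⌋₊ := by
        have h7 := floor_le_J hQ1 J
        have h8 : (⌊Q * (J : ℝ)⌋₊ : ℝ) ≤ J := by exact_mod_cast h7
        have h9 : (0 : ℝ) ≤ ⌊(w : ℝ) * J⌋₊ := Nat.cast_nonneg _
        linarith
      have f6 : ((J : ℝ) - ⌊Q * J⌋₊ + ⌊(w : ℝ) * J⌋₊) * Real.log 2 ≤
          R / 24 * J + 1 + R / 48 * J :=
        (mul_le_of_le_one_right f5 hl21).trans f4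
      have f7 : (R / 2 - τ') * (azJ Q w s J : ℝ) ≤ R / 2 * J := by
        have h7 : (R / 2 - τ') * (azJ Q w s J : ℝ) ≤ R / 2 * azJ Q w s J :=
          mul_le_mul_of_nonneg_right (by linarith) hJ'0
        have h8 : R / 2 * (azJ Q w s J : ℝ) ≤ R / 2 * J :=
          mul_le_mul_of_nonneg_left hle (by linarith)
        linarith
      linarith
  · exact (Nat.mul_le_mul_right _ (hiρ.trans hρN)).trans (Nat.mul_div_le _ _)

end Pool.S6C
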